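import Pool.Agent.Helper67.CubeHad
import Pool.Agent.Helper67.CubeCover

/-!
# Lower bounds for covers of the cube by arbitrary simplices
-/

namespace Helper67.Kept.CoverBound

open Helper67.Cube

/-- the numerical inequality behind the closed form -/
lemma num_ineq : ∀ d : ℕ, 7 ≤ d → ∀ k, 1 ≤ k → k ≤ d →
    k ^ 2 * 4 ^ (k-1) * (d - k + 1) ^ (d - k + 1) ≤ d ^ d := by
  intro d hd
  induction d, hd using Nat.le_induction with
  | base =>
    intro k h1 h2
    interval_cases k <;> norm_num
  | succ d hd ih =>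
    intro k h1 h2
    rcases Nat.eq_or_lt_of_le h1 with h | h
    · rw [← h]; simp
    · obtain ⟨m, rfl⟩ : ∃ m, k = m + 1 := ⟨k - 1, by omega⟩
      have hm : 1 ≤ m := by omega
      have h3 := ih m hm (by omega)
      have e1 : d + 1 - (m + 1) + 1 = d - m + 1 := by omega
      have e2 : m + 1 - 1 = (m - 1) + 1 := by omega
      rw [e1, e2, pow_succ 4 (m-1)]
      have h4 : (m + 1) ^ 2 ≤ 4 * m ^ 2 := by nlinarith
      have h5 : 16 * d ^ d ≤ (d + 1) ^ (d + 1) := by
        have h6 : 2 * d ^ d ≤ (d + 1) ^ d := by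
          have h7 := one_add_mul_le_pow (a := (1 : ℚ) / d) (by
            have : (0 : ℚ) ≤ 1 / d := by positivity
            linarith) d
          have hd0 : (d : ℚ) ≠ 0 := by
            have : d ≠ 0 := by omega
            exact_mod_cast this
          have h8 : (1 : ℚ) + d * (1 / d) = 2 := by field_simp; norm_num
          rw [h8] at h7
          have h9 : (2 : ℚ) * d ^ d ≤ (d + 1) ^ d := by
            have h10 : ((d : ℚ) + 1) ^ d = (1 + 1 / d) ^ d * d ^ d := by
              rw [← mul_pow]; congr 1; field_simp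
            rw [h10]
            exact mul_le_mul_of_nonneg_right h7 (by positivity)
          exact_mod_cast h9
        calc 16 * d ^ d = 8 * (2 * d ^ d) := by ring
          _ ≤ (d + 1) * (d + 1) ^ d := Nat.mul_le_mul (by omega) h6
          _ = (d + 1) ^ (d + 1) := by ring
      calc (m + 1) ^ 2 * (4 ^ (m-1) * 4) * (d - m + 1) ^ (d - m + 1)
          ≤ (4 * m ^ 2) * (4 ^ (m-1) * 4) * (d - m + 1) ^ (d - m + 1) := by gcongr
        _ = 16 * (m ^ 2 * 4 ^ (m-1) * (d - m + 1) ^ (d - m + 1)) := by ring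
        _ ≤ 16 * d ^ d := by gcongr
        _ ≤ _ := h5

theorem closed {d N : ℕ} (hd : 7 ≤ d) (W : Fin N → Fin (d+1) → Fin d → ℝ) (hW : IsCover W) :
    2 ^ d * (d.factorial : ℝ) / Real.sqrt (d ^ d) ≤ N := by
  obtain ⟨m, rfl⟩ : ∃ m, d = m + 1 := ⟨d - 1, by omega⟩
  set s : ℝ := Real.sqrt (((m + 1 : ℕ) : ℝ) ^ (m + 1)) with hs
  have hs0 : 0 < s := Real.sqrt_pos.2 (by positivity)
  have hs2 : s ^ 2 = ((m + 1 : ℕ) : ℝ) ^ (m + 1) := Real.sq_sqrt (by positivity)
  have h := cover_bound (by omega) W hW 0 (2 ^ m / s) le_rfl (by positivity) ?_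
  · refine le_trans (le_of_eq ?_) h
    rw [pow_succ]; field_simp
    ring
  · intro k hk
    rcases Nat.eq_zero_or_pos k with h0 | h0
    · rw [h0]; simp
    · have h1 := num_ineq (m + 1) hd k h0 hk
      have h2 := hadamard01 (m + 1 - k)
      have h3 : (2 ^ m * (k * maxDet (m + 1 - k))) ^ 2 ≤ (m + 1) ^ (m + 1) := by
        calc (2 ^ m * (k * maxDet (m + 1 - k))) ^ 2
            = k ^ 2 * 4 ^ (k - 1) * (4 ^ (m + 1 - k) * (maxDet (m + 1 - k)) ^ 2) := by
              have e : 4 ^ (k - 1) * 4 ^ (m + 1 - k) = 4 ^ m := by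
                rw [← pow_add]; congr 1; omega
              calc (2 ^ m * (k * maxDet (m + 1 - k))) ^ 2
                  = k ^ 2 * 4 ^ m * (maxDet (m + 1 - k)) ^ 2 := by
                    have : (4 : ℕ) ^ m = (2 ^ m) ^ 2 := by
                      rw [← pow_mul, mul_comm, pow_mul]; norm_num
                    rw [this]; ring
                _ = _ := by rw [← e]; ring
          _ ≤ k ^ 2 * 4 ^ (k - 1) * (m + 1 - k + 1) ^ (m + 1 - k + 1) := by gcongr
          _ ≤ _ := h1
      have h4 : (2 ^ m * (k * maxDet (m + 1 - k)) : ℝ) ≤ s := by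
        refine Real.le_sqrt_of_sq_le ?_
        exact_mod_cast h3
      rw [zero_add]
      calc (k * (2 ^ m / s)) * (maxDet (m + 1 - k) : ℝ)
          = (2 ^ m * (k * maxDet (m + 1 - k)) : ℝ) / s := by ring
        _ ≤ 1 := (div_le_one hs0).2 h4

lemma zero_case (B v : ℝ) : (0 + ((0 : ℕ) : ℝ) * B) * v ≤ 1 := by
  rw [Nat.cast_zero, zero_mul, add_zero, zero_mul]; exact zero_le_one

theorem five {N : ℕ} (W : Fin N → Fin 6 → Fin 5 → ℝ) (hW : IsCover W) : 60 ≤ N := by
  have h := cover_bound (m := 4) (by norm_num) W hW (1/6) (1/6) (by norm_num) (by norm_num) ?_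
  · have h2 : ((60 : ℕ) : ℝ) ≤ N := by
      refine le_trans (le_of_eq ?_) h
      norm_num [Nat.factorial]
    exact_mod_cast h2
  · intro k hk
    interval_cases k
    · exact mul_maxDet_le (n := 5) maxDet_five' (by norm_num) (by norm_num)
    · exact mul_maxDet_le (n := 4) maxDet_four (by norm_num) (by norm_num)
    · exact mul_maxDet_le (n := 3) maxDet_three (by norm_num) (by norm_num)
    · exact mul_maxDet_le (n := 2) maxDet_two (by norm_num) (by norm_num)
    · exact mul_maxDet_le (n := 1) maxDet_one (by norm_num) (by norm_num)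
    · exact mul_maxDet_le (n := 0) maxDet_zero (by norm_num) (by norm_num)

theorem six {N : ℕ} (W : Fin N → Fin 7 → Fin 6 → ℝ) (hW : IsCover W) : 240 ≤ N := by
  have h := cover_bound (m := 5) (by norm_num) W hW 0 (1/6) (by norm_num) (by norm_num) ?_
  · have h2 : ((240 : ℕ) : ℝ) ≤ N := by
      refine le_trans (le_of_eq ?_) h
      norm_num [Nat.factorial]
    exact_mod_cast h2
  · intro k hk
    interval_cases k
    · exact zero_case _ _
    · exact mul_maxDet_le (n := 5) maxDet_five' (by norm_num) (by norm_num)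
    · exact mul_maxDet_le (n := 4) maxDet_four (by norm_num) (by norm_num)
    · exact mul_maxDet_le (n := 3) maxDet_three (by norm_num) (by norm_num)
    · exact mul_maxDet_le (n := 2) maxDet_two (by norm_num) (by norm_num)
    · exact mul_maxDet_le (n := 1) maxDet_one (by norm_num) (by norm_num)
    · exact mul_maxDet_le (n := 0) maxDet_zero (by norm_num) (by norm_num)

theorem seven {N : ℕ} (W : Fin N → Fin 8 → Fin 7 → ℝ) (hW : IsCover W) : 720 ≤ N := by
  have h := cover_bound (m := 6) (by norm_num) W hW 0 (1/14) (by norm_num) (by norm_num) ?_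
  · have h2 : ((720 : ℕ) : ℝ) ≤ N := by
      refine le_trans (le_of_eq ?_) h
      norm_num [Nat.factorial]
    exact_mod_cast h2
  · intro k hk
    interval_cases k
    · exact zero_case _ _
    · exact mul_maxDet_le (n := 6) maxDet_six' (by norm_num) (by norm_num)
    · exact mul_maxDet_le (n := 5) maxDet_five' (by norm_num) (by norm_num)
    · exact mul_maxDet_le (n := 4) maxDet_four (by norm_num) (by norm_num)
    · exact mul_maxDet_le (n := 3) maxDet_three (by norm_num) (by norm_num)
    · exact mul_maxDet_le (n := 2) maxDet_two (by norm_num) (by norm_num)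
    · exact mul_maxDet_le (n := 1) maxDet_one (by norm_num) (by norm_num)
    · exact mul_maxDet_le (n := 0) maxDet_zero (by norm_num) (by norm_num)

/-- Lower bounds for the number `N` of members of a cover of `I_d` by arbitrary `d`-simplices. -/
theorem result :
    (∀ (d N : ℕ) (W : Fin N → Fin (d+1) → Fin d → ℝ), 2 ≤ d → IsCover W →
      ∀ A B : ℝ, 0 ≤ A → 0 ≤ B → (∀ k ≤ d, (A + k * B) * maxDet (d - k) ≤ 1) →
        (d.factorial : ℝ) * (A + 2 * B) ≤ N) ∧
    (∀ (d N : ℕ) (W : Fin N → Fin (d+1) → Fin d → ℝ), 7 ≤ d → IsCover W →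
      2 ^ d * (d.factorial : ℝ) / Real.sqrt (d ^ d) ≤ N) ∧
    (∀ (N : ℕ) (W : Fin N → Fin 6 → Fin 5 → ℝ), IsCover W → 60 ≤ N) ∧
    (∀ (N : ℕ) (W : Fin N → Fin 7 → Fin 6 → ℝ), IsCover W → 240 ≤ N) ∧
    (∀ (N : ℕ) (W : Fin N → Fin 8 → Fin 7 → ℝ), IsCover W → 720 ≤ N) := by
  refine ⟨?_, fun d N W hd hW => closed hd W hW, fun N W hW => five W hW,
    fun N W hW => six W hW, fun N W hW => seven W hW⟩
  intro d N W hd hW A B hA hB h
  obtain ⟨m, rfl⟩ : ∃ m, d = m + 1 := ⟨d - 1, by omega⟩
  exact cover_bound (by omega) W hW A B hA hB h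

end Helper67.Kept.CoverBound
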