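import Pool.Agent.Helper67.CubeRep5
import Pool.Agent.Helper51.BS.Main

/-!
# Triangulations and vertex covers of the 5-cube need at least 67 simplices

An invariant weight on the orbits of five points of the cube for which every vertex simplex has
weight at most `7692 / (3840 * 133)` of the total weight. The 237 symmetry classes of vertex
simplices are enumerated and checked.
-/

namespace Helper67.Kept.FiveCube

open Helper67.Cube

lemma x5_le (o : ℕ) (j : Fin 5) : x5 o j ≤ 1000 := by
  unfold x5
  split <;> fin_cases j <;> decide

lemma base5_spec : ∀ o < 5, ∀ j : Fin 5,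
    base5 o j = pk 15 (fun y => y j) (permsL 5 (x5 o)) := by
  intro o ho j
  have h := base5_eq
  rw [List.all_eq_true] at h
  have h1 := h o (List.mem_range.2 ho)
  rw [List.all_eq_true] at h1
  exact Nat.eq_of_beq_eq_true (h1 j (List.mem_finRange j))

lemma one05_spec (o : ℕ) : one05 = pk 15 (fun _ => 1) (permsL 5 (x5 o)) := by
  have aux : ∀ (L L' : List (Fin 5 → ℕ)), L.length = L'.length →
      pk 15 (fun _ => 1) L = pk 15 (fun _ => 1) L' := by
    intro L
    induction L with
    | nil => intro L' h; rw [List.length_nil] at h; rw [List.eq_nil_of_length_eq_zero h.symm]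
    | cons y L ih =>
      intro L' h
      cases L' with
      | nil => simp at h
      | cons y' L' =>
        rw [pk, pk, ih L' (by simpa using h)]
  rw [one05_eq]
  exact aux _ _ (by rw [permsL_length, permsL_length])

theorem lower {N : ℕ} (W : Fin N → Fin 6 → Fin 5 → ℝ) (hW : IsCover W) (hv : IsVertexFamily W) :
    67 ≤ N := by
  have hlen : ∀ o, (permsL 5 (x5 o)).length = 120 := fun o => by rw [permsL_length]; rfl
  have h := cover_bound_of_cert (d := 5) (Q := 1000) (b := 15) (K := 5) (B := 7692) (n := 472)
    (wt := wt5) (X := X5) (one := one5) (deg := deg5) (ap := ap5) (an := an5) (C := C6) (x := x5)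
    (by norm_num) (by norm_num) (fun o _ j => x5_le o j) ?_ ?_ (by norm_num [Nat.factorial])
    lev6 rep5_all hW hv
  · have hs : ∑ o : Fin 5, wt5 o = 133 := by
      simp [Fin.sum_univ_succ, wt5]
    rw [hs] at h
    norm_num [Nat.factorial] at h
    omega
  · intro o ho j
    have := coordP_eq 15 1000 one05 (base5 o) (permsL 5 (x5 o)) (one05_spec o)
      (base5_spec o ho) (permsL_le _ _ (x5_le o)) 5 j
    rw [hlen] at this
    exact this
  · intro o ho
    have := oneP_eq 15 1000 one05 (permsL 5 (x5 o)) (one05_spec o) 5
    rw [hlen] at this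
    exact this

theorem lowerT {N : ℕ} (W : Fin N → Fin 6 → Fin 5 → ℝ) (hW : IsTriangulation W) : 67 ≤ N := by
  obtain ⟨N', hN, W', hW', hv⟩ := Helper51.BS.vertex_cover_of_triangulation hW
  exact (lower W' hW' hv).trans hN

end Helper67.Kept.FiveCube
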