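import Pool.Agent.Helper67.CubeHad
import Pool.Agent.Helper67.CubeCover

/-!
# Covers of the 4-cube have at least 16 members

The average over the members of `8 vol_4(S) + vol_3 (S ∩ ∂ I_4)` is at most one.
-/

namespace Helper67.Kept.FourCube

open Helper67.Cube

theorem lower {N : ℕ} (W : Fin N → Fin 5 → Fin 4 → ℝ) (hW : IsCover W) : 16 ≤ N := by
  have h := cover_bound (m := 3) (by norm_num) W hW (1/3) (1/6) (by norm_num) (by norm_num) ?_
  · have h2 : ((16 : ℕ) : ℝ) ≤ N := by
      refine le_trans (le_of_eq ?_) h
      norm_num [Nat.factorial]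
    exact_mod_cast h2
  · intro k hk
    interval_cases k
    · exact mul_maxDet_le (n := 4) maxDet_four (by norm_num) (by norm_num)
    · exact mul_maxDet_le (n := 3) maxDet_three (by norm_num) (by norm_num)
    · exact mul_maxDet_le (n := 2) maxDet_two (by norm_num) (by norm_num)
    · exact mul_maxDet_le (n := 1) maxDet_one (by norm_num) (by norm_num)
    · exact mul_maxDet_le (n := 0) maxDet_zero (by norm_num) (by norm_num)

end Helper67.Kept.FourCube
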